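import Pool.Agent.N463.MI.Stm

/-!
Project MI, part C01: the arc near `0` (assembly).
-/

open Finset Polynomial

noncomputable section

namespace Pool.Agent.N457.MI

open Pool.Agent.N463.MI

/-- the final comparison -/
theorem fin_cmp {L t S c e D : ℝ} (ht : 0 < t) (hD : 0 < D)
    (hDL : Real.log D ≤ L / 2) (hS : S ≤ e / t + 6.5) (hc : L ^ 2 / 2 + (e + 0.082) ≤ c)
    (hy : 220 ≤ 1 / t) :
    D * Real.exp (L ^ 2 / (2 * t) - L / 2 + S) ≤ t * √t * Real.exp (c / t - 3) := by
  have h1 : t * √t = Real.exp (3 / 2 * Real.log t) := by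
    have h2 : √t = Real.exp (1 / 2 * Real.log t) := by
      rw [Real.sqrt_eq_rpow, Real.rpow_def_of_pos ht]
      congr 1
      ring
    rw [h2]
    conv_lhs => rw [← Real.exp_log ht, Real.log_exp]
    rw [← Real.exp_add]
    congr 1
    ring
  have h3 : D = Real.exp (Real.log D) := (Real.exp_log hD).symm
  rw [h1, h3, ← Real.exp_add, ← Real.exp_add, Real.exp_le_exp]
  set y : ℝ := 1 / t with hyd
  have hy0 : 0 < y := by positivity
  have e1 : L ^ 2 / (2 * t) = L ^ 2 / 2 * y := by rw [hyd]; field_simp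
  have e2 : e / t = e * y := by rw [hyd]; ring
  have e3 : c / t = c * y := by rw [hyd]; ring
  have e4 : Real.log t = -Real.log y := by rw [hyd, one_div, Real.log_inv, neg_neg]
  rw [e1, e3, e4]
  rw [e2] at hS
  have h5 : (L ^ 2 / 2 + (e + 0.082)) * y ≤ c * y := mul_le_mul_of_nonneg_right hc hy0.le
  have h6 : Real.log y ≤ 9 * Real.log 2 + (y / 512 - 1) := by
    have h7 : Real.log (y / 512) ≤ y / 512 - 1 := Real.log_le_sub_one_of_pos (by positivity)
    rw [Real.log_div hy0.ne' (by norm_num), show (512 : ℝ) = 2 ^ 9 by norm_num,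
      Real.log_pow] at h7
    push_cast at h7
    linarith
  have h8 := Real.log_two_lt_d9
  norm_num at hS h5 ⊢
  nlinarith

theorem t_C01 (h5 : A05) (h4 : B04) (hm : C01m) (hr : C01r) : C01 := by
  intro a K θ hA hθ0 hθ1
  have hcst := h4
  obtain ⟨b2, -, b3, -⟩ := hcst
  have l2a := Real.log_two_lt_d9
  have l2b := Real.log_two_gt_d9
  have l3a : 1 ≤ Real.log 3 := by
    rw [Real.le_log_iff_exp_le (by norm_num)]
    linarith [Real.exp_one_lt_d9]
  have l3b : Real.log 3 ≤ 3 / 2 := by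
    have h : Real.log 3 ≤ Real.log 4 := Real.log_le_log (by norm_num) (by norm_num)
    rw [show (4 : ℝ) = 2 ^ 2 by norm_num, Real.log_pow] at h
    push_cast at h
    linarith
  unfold Pool.Agent.N463.MI.Small
  set t : ℝ := Real.log a / K with ht
  have ha1 : 1 < a := by rcases hA with ⟨h, -⟩ | ⟨h, -⟩ <;> rw [h] <;> norm_num
  have hK : 340 ≤ K := by rcases hA with ⟨-, h⟩ | ⟨-, h⟩ <;> omega
  have hK1 : 1 ≤ K := by omega
  have hK0 : (0 : ℝ) < K := by exact_mod_cast (by omega : 0 < K)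
  have hL : 0 < Real.log a := Real.log_pos ha1
  have ht0 : 0 < t := div_pos hL hK0
  obtain ⟨hs, hb⟩ := h5 a K θ ha1 hK1 t ht
  have hsum := hs.sum_add_tsum_nat_add 78
  have hm' := hm a K θ t hA ht hθ0 hθ1
  have hr' := hr a K θ t hA ht
  refine hb.trans ?_
  have hy : 1 / t = K / Real.log a := by rw [ht, one_div_div]
  have hKr : (340 : ℝ) ≤ K := by exact_mod_cast hK
  rcases hA with ⟨h, -⟩ | ⟨h, -⟩
  · refine fin_cmp (e := 0.2886) ht0 (by positivity) ?_ ?_ ?_ ?_
    · have h7 : Real.log (2 / (1 + a⁻¹)) ≤ 2 / (1 + a⁻¹) - 1 :=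
        Real.log_le_sub_one_of_pos (by positivity)
      rw [h] at h7 ⊢
      norm_num at h7 ⊢
      linarith
    · rw [if_pos h] at hm'
      rw [← hsum]
      have e1 : (0.2886 : ℝ) / t + 6.5 = 0.25 / t + 6.5 + 0.0386 / t := by ring
      rw [e1]
      exact add_le_add hm' hr'
    · rw [h]
      norm_num at b2 ⊢
      linarith
    · rw [hy, le_div_iff₀ hL, h]
      linarith
  · refine fin_cmp (e := 0.3386) ht0 (by positivity) ?_ ?_ ?_ ?_
    · have h7 : Real.log (2 / (1 + a⁻¹)) ≤ 2 / (1 + a⁻¹) - 1 :=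
        Real.log_le_sub_one_of_pos (by positivity)
      rw [h] at h7 ⊢
      norm_num at h7 ⊢
      linarith
    · rw [if_neg (by rw [h]; norm_num)] at hm'
      rw [← hsum]
      have e1 : (0.3386 : ℝ) / t + 6.5 = 0.30 / t + 6.5 + 0.0386 / t := by ring
      rw [e1]
      exact add_le_add hm' hr'
    · rw [h]
      norm_num at b3 ⊢
      linarith
    · rw [hy, le_div_iff₀ hL, h]
      linarith

end Pool.Agent.N457.MI
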