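import Pool.Agent.N463.MI.Stm

/-!
Project MI, part E05a: the generating function as the exponential of a sum of logarithms.
-/

open Finset Polynomial

noncomputable section

namespace Pool.Agent.N457.MI

open Pool.Agent.N463.MI

theorem pt_pow (t x : ℝ) (k : ℕ) :
    pt t (t * x) ^ (k + 1) = Complex.exp (-(sp t x ((k : ℝ) + 1))) := by
  unfold pt sp
  rw [← Complex.exp_nat_mul]
  congr 1
  push_cast
  ring

theorem ne_zero_E (h1 : E01) {b t x : ℝ} (hb0 : 0 ≤ b) (hb3 : b ≤ 3) (ht : 0 < t) (hx : |x| ≤ 1)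
    (k : ℕ) : 1 + (b : ℂ) * pt t (t * x) ^ (k + 1) ≠ 0 := by
  have hs : 0 ≤ ((k : ℝ) + 1) * t := by positivity
  have hy : |((k : ℝ) + 1) * t * x| ≤ ((k : ℝ) + 1) * t := by
    rw [abs_mul, abs_of_nonneg hs]
    exact mul_le_of_le_one_right hs hx
  have h2 := h1 b (((k : ℝ) + 1) * t) (((k : ℝ) + 1) * t * x) hb0 hb3 hs hy
  intro h
  have h3 := congrArg Complex.re h
  have h4 : (-(sp t x ((k : ℝ) + 1))) =
      ((-(((k : ℝ) + 1) * t) : ℝ) : ℂ) + ((((k : ℝ) + 1) * t * x : ℝ) : ℂ) * Complex.I := by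
    unfold sp
    push_cast
    ring
  rw [pt_pow, h4, Complex.exp_add_mul_I, ← Complex.ofReal_exp, ← Complex.ofReal_cos,
    ← Complex.ofReal_sin] at h3
  simp only [Complex.add_re, Complex.one_re, Complex.mul_re, Complex.ofReal_re,
    Complex.ofReal_im, Complex.I_re, Complex.I_im, Complex.zero_re, zero_mul, sub_zero, mul_zero,
    mul_one, Complex.add_im, Complex.mul_im, add_zero, zero_add] at h3
  nlinarith

theorem norm_pt_lt {t x : ℝ} (ht : 0 < t) : ‖pt t (t * x)‖ < 1 := by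
  unfold pt
  rw [Complex.norm_exp]
  simp only [Complex.add_re, Complex.neg_re, Complex.ofReal_re, Complex.mul_re, Complex.I_re,
    mul_zero, Complex.ofReal_im, Complex.I_im, mul_one, sub_self, add_zero]
  rw [Real.exp_lt_one_iff]
  linarith

theorem PP_exp (h1 : E01) {b t x : ℝ} (hb0 : 0 ≤ b) (hb3 : b ≤ 3) (ht : 0 < t) (hx : |x| ≤ 1) :
    Summable (fun k : ℕ => Complex.log (1 + (b : ℂ) * pt t (t * x) ^ (k + 1))) ∧
    PP (b : ℂ) (pt t (t * x)) =
      Complex.exp (∑' k : ℕ, Complex.log (1 + (b : ℂ) * pt t (t * x) ^ (k + 1))) := by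
  have hq := norm_pt_lt (x := x) ht
  have hs : Summable (fun k : ℕ => (b : ℂ) * pt t (t * x) ^ (k + 1)) := by
    refine Summable.mul_left _ ?_
    exact (summable_nat_add_iff 1).2 (summable_geometric_of_norm_lt_one hq)
  have hl := Complex.summable_log_one_add_of_summable hs
  refine ⟨hl, ?_⟩
  unfold PP
  rw [Complex.cexp_tsum_eq_tprod (fun k => ne_zero_E h1 hb0 hb3 ht hx k) hl]

theorem t_E05a (h1 : E01) : E05a := by
  intro a t x ha ht hx
  have ha0 : 0 ≤ a := by rcases ha with h | h <;> rw [h] <;> norm_num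
  have ha3 : a ≤ 3 := by rcases ha with h | h <;> rw [h] <;> norm_num
  obtain ⟨sa, ea⟩ := PP_exp h1 ha0 ha3 ht hx
  obtain ⟨sb, eb⟩ := PP_exp h1 (b := 1) (by norm_num) (by norm_num) ht hx
  have hg : ∀ k : ℕ, gg a (sp t x ((k : ℝ) + 1)) =
      Complex.log (1 + (a : ℂ) * pt t (t * x) ^ (k + 1)) -
        Complex.log (1 + ((1 : ℝ) : ℂ) * pt t (t * x) ^ (k + 1)) := by
    intro k
    unfold gg
    rw [pt_pow, Complex.ofReal_one, one_mul]
  simp only [hg]
  refine ⟨sa.sub sb, ?_⟩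
  rw [sa.tsum_sub sb, Complex.exp_sub, ← ea, ← eb]
  unfold FF
  rw [Complex.ofReal_one]

end Pool.Agent.N457.MI
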